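import Pool.Agent.TH991.Prob3

/-!
# MP_b4265e_pr, Q1: a negative answer

Bernoulli bond percolation on `ℤ^d`, `d ≥ 3`, with `p < 1` close to `1`.  Almost surely there is a
positive function on the infinite cluster that is harmonic at all sites but one, tends to zero at
infinity and has zero gradient on a set of edges of positive density.
-/

set_option autoImplicit false

open MeasureTheory ProbabilityTheory Filter
open scoped ENNReal Topology

namespace Pool.Agent.Results.MP_b4265e_pr.VanishingGradients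

/-! ### definitions used in the statement -/

/-- the nearest-neighbour lattice `ℤ^d` -/
def lattice (d : ℕ) : SimpleGraph (Fin d → ℤ) where
  Adj x y := ∑ i, |x i - y i| = 1
  symm := ⟨fun x y h => by
    rw [← h]; exact Finset.sum_congr rfl fun i _ => abs_sub_comm _ _⟩
  loopless := ⟨fun x h => by simp at h⟩

/-- the sites that lie in infinite clusters of the graph `G` -/
def infCluster {V : Type} (G : SimpleGraph V) : Set V := {x | {y | G.Reachable x y}.Infinite}

/-- `u` is harmonic at `x`: the sum of `u y - u x` over the neighbours `y` of `x` is zero -/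
def HarmonicAt {V : Type} (G : SimpleGraph V) (u : V → ℝ) (x : V) : Prop :=
  ∑ᶠ y ∈ G.neighborSet x, (u y - u x) = 0

/-- the ball (in sup norm) of radius `N` centred at the origin -/
def ball (d N : ℕ) : Set (Fin d → ℤ) := {x | ∀ i, |x i| ≤ N}

/-- a set of edges has positive density: `liminf |B_N|⁻¹ |A ∩ B_N| > 0` -/
def PosDens {d : ℕ} (A : Set (Sym2 (Fin d → ℤ))) : Prop :=
  0 < liminf (fun N : ℕ => ({e ∈ A | ∀ x ∈ e, x ∈ ball d N}.ncard : ℝ≥0∞) / (ball d N).ncard) atTop

/-- the edges of the infinite clusters of `G` -/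
def clusterEdges {V : Type} (G : SimpleGraph V) : Set (Sym2 V) :=
  {e ∈ G.edgeSet | ∀ x ∈ e, x ∈ infCluster G}

/-- `∇ u (e) = 0` -/
def ZeroGrad {V : Type} (u : V → ℝ) (e : Sym2 V) : Prop := ∀ x ∈ e, ∀ y ∈ e, u x = u y

/-- the assertion of the question, for the cluster of the open graph `G` -/
def Assertion {d : ℕ} (G : SimpleGraph (Fin d → ℤ)) : Prop :=
  ∀ u : (Fin d → ℤ) → ℝ,
    (∃ F : Set (Fin d → ℤ), F.Finite ∧ ∀ x ∈ infCluster G, x ∉ F → HarmonicAt G u x) →
    Tendsto u (cofinite ⊓ 𝓟 (infCluster G)) (𝓝 0) →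
    PosDens {e ∈ clusterEdges G | ZeroGrad u e} →
    {x ∈ infCluster G | u x ≠ 0}.Finite

/-- a two-connected edge of the cluster: it is not a bridge, and no single site separates an
endpoint of it from infinity (in particular the edge does not belong to a dangling end) -/
def NonDangling {V : Type} (G : SimpleGraph V) (e : Sym2 V) : Prop :=
  e ∈ clusterEdges G ∧ ¬ G.IsBridge e ∧
    ∀ x ∈ e, ∀ z, z ≠ x → x ∈ infCluster (G.deleteIncidenceSet z)

/-! ### translation -/

open Pool.Agent.W844.VG Pool.Agent.TH991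

variable {d : ℕ}

/-- the edge `e` as an unordered pair -/
def toS (e : E d) : Sym2 (Fin d → ℤ) := s(e.1, e.1 + stp e.2)

lemma stp_ne_neg {i j : Fin d} : (stp i : V d) ≠ -stp j := by
  intro h
  have h1 := congrFun h i
  rw [Pi.neg_apply, stp_same, stp_apply] at h1
  split_ifs at h1; omega

lemma toS_inj : Function.Injective (toS (d := d)) := by
  rintro ⟨x, i⟩ ⟨y, j⟩ h
  simp only [toS, Sym2.eq_iff] at h
  rcases h with ⟨h1, h2⟩ | ⟨h1, h2⟩
  · subst h1
    rw [add_right_inj, stp_inj] at h2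
    rw [h2]
  · exfalso
    rw [h1, add_assoc, add_eq_left] at h2
    exact stp_ne_neg (eq_neg_of_add_eq_zero_right h2)

lemma lattice_adj {x y : V d} : (lattice d).Adj x y ↔ ∃ i, y = x + stp i ∨ x = y + stp i := by
  show (∑ i, |x i - y i| = 1) ↔ _
  constructor
  · intro h
    have hnn : ∀ i ∈ Finset.univ, 0 ≤ |x i - y i| := fun i _ => abs_nonneg _
    obtain ⟨i, _, hi⟩ := Finset.exists_ne_zero_of_sum_ne_zero (by rw [h]; norm_num :
      ∑ i, |x i - y i| ≠ 0)
    have h1 : |x i - y i| ≤ 1 := by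
      rw [← h]; exact Finset.single_le_sum hnn (Finset.mem_univ i)
    have h2 : |x i - y i| = 1 := by
      have := abs_nonneg (x i - y i); omega
    have h3 : ∀ j, j ≠ i → x j = y j := by
      rw [← Finset.add_sum_erase _ _ (Finset.mem_univ i), h2, add_eq_left,
        Finset.sum_eq_zero_iff_of_nonneg fun i _ => abs_nonneg _] at h
      intro j hj
      have := h j (Finset.mem_erase.mpr ⟨hj, Finset.mem_univ _⟩)
      rw [abs_eq_zero] at this; omega
    refine ⟨i, ?_⟩
    rcases (abs_eq (by norm_num : (0 : ℤ) ≤ 1)).mp h2 with h4 | h4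
    · right; ext j
      by_cases hj : j = i
      · subst hj; rw [Pi.add_apply, stp_same]; omega
      · rw [Pi.add_apply, stp_ne hj, h3 j hj, add_zero]
    · left; ext j
      by_cases hj : j = i
      · subst hj; rw [Pi.add_apply, stp_same]; omega
      · rw [Pi.add_apply, stp_ne hj, h3 j hj, add_zero]
  · rintro ⟨i, rfl | rfl⟩
    · have : ∀ j, |x j - (x + stp i) j| = if j = i then 1 else 0 := by
        intro j; rw [Pi.add_apply, stp_apply]; split_ifs <;> simp
      rw [Finset.sum_congr rfl fun j _ => this j]; simp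
    · have : ∀ j, |(y + stp i) j - y j| = if j = i then 1 else 0 := by
        intro j; rw [Pi.add_apply, stp_apply]; split_ifs <;> simp
      rw [Finset.sum_congr rfl fun j _ => this j]; simp

/-- the open edges -/
def OE (ω : Set (Sym2 (Fin d → ℤ))) : Set (E d) := {e | toS e ∈ ω}

lemma gr_eq {ω : Set (Sym2 (Fin d → ℤ))} (hω : ω ⊆ (lattice d).edgeSet) :
    SimpleGraph.fromEdgeSet ω = gr (OE ω) := by
  ext x y
  rw [SimpleGraph.fromEdgeSet_adj, gr_adj]
  constructor
  · rintro ⟨h1, _⟩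
    obtain ⟨i, h | h⟩ := lattice_adj.mp (hω h1)
    · exact ⟨i, Or.inl ⟨h, by show s(x, x + stp i) ∈ ω; rw [← h]; exact h1⟩⟩
    · exact ⟨i, Or.inr ⟨h, by show s(y, y + stp i) ∈ ω; rw [← h, Sym2.eq_swap]; exact h1⟩⟩
  · rintro ⟨i, ⟨h1, h2⟩ | ⟨h1, h2⟩⟩
    · refine ⟨by rw [h1]; exact h2, fun h => ?_⟩
      rw [← h] at h1; exact stp_ne_zero i (left_eq_add.mp h1)
    · refine ⟨by rw [h1, Sym2.eq_swap]; exact h2, fun h => ?_⟩
      rw [← h] at h1; exact stp_ne_zero i (left_eq_add.mp h1)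

lemma nb_inj (x : V d) : Function.Injective (nb x) := by
  rintro ⟨i, b⟩ ⟨j, b'⟩ h
  cases b <;> cases b' <;> simp only [nb, if_true, Bool.false_eq_true, if_false] at h
  · rw [sub_right_inj, stp_inj] at h; rw [h]
  · rw [sub_eq_add_neg, add_right_inj] at h; exact absurd h.symm stp_ne_neg
  · rw [sub_eq_add_neg, add_right_inj] at h; exact absurd h stp_ne_neg
  · rw [add_right_inj, stp_inj] at h; rw [h]

lemma harmonicAt_iff {O : Set (E d)} {u : V d → ℝ} {x : V d} :
    HarmonicAt (gr O) u x ↔ HarmAt O u x := by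
  classical
  rw [harmAt_iff]
  unfold HarmonicAt lap
  have h1 : (gr O).neighborSet x = nb x '' {t | ed x t ∈ O} := by
    ext y
    rw [SimpleGraph.mem_neighborSet, adj_iff]
    constructor
    · rintro ⟨t, h1, h2⟩; exact ⟨t, h2, h1.symm⟩
    · rintro ⟨t, h1, h2⟩; exact ⟨t, h2.symm, h1⟩
  rw [h1, finsum_mem_image (nb_inj x).injOn, finsum_mem_def, finsum_eq_sum_of_fintype]
  have h2 : ∀ t, Set.indicator {t | ed x t ∈ O} (fun t => u (nb x t) - u x) t =
      if ed x t ∈ O then u (nb x t) - u x else 0 := fun t => by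
    rw [Set.indicator_apply]; rfl
  rw [Finset.sum_congr rfl fun t _ => h2 t]

lemma infCluster_gr (O : Set (E d)) : infCluster (gr O) = InfV O := rfl

lemma del_gr (O : Set (E d)) (z : V d) : (gr O).deleteIncidenceSet z = gr (del O z) := by
  ext x y
  rw [SimpleGraph.deleteIncidenceSet_adj]
  constructor
  · rintro ⟨h1, h2, h3⟩; exact del_adj h1 h2 h3
  · rintro ⟨i, ⟨h1, h2⟩ | ⟨h1, h2⟩⟩
    · exact ⟨⟨i, Or.inl ⟨h1, h2.1⟩⟩, h2.2.1, by rw [h1]; exact h2.2.2⟩
    · exact ⟨⟨i, Or.inr ⟨h1, h2.1⟩⟩, by rw [h1]; exact h2.2.2, h2.2.1⟩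

/-! ### probability -/

/-- the indicator of the edge `e` -/
noncomputable def XX (e : E d) (ω : Set (Sym2 (Fin d → ℤ))) : Bool :=
  @decide (toS e ∈ ω) (Classical.dec _)

lemma opn_XX (ω : Set (Sym2 (Fin d → ℤ))) : opn XX ω = OE ω := by
  ext e
  simp only [opn, OE, XX, Set.mem_ofPred_eq, decide_eq_true_eq]

lemma isPerc (d : ℕ) (p : unitInterval) :
    IsPerc (setBernoulli (lattice d).edgeSet p) (XX (d := d)) p := by
  classical
  set u := (lattice d).edgeSet with hu
  have hdec : Measurable fun P : Prop => (@decide P (Classical.dec _) : Bool) := measurable_from_top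
  refine ⟨inferInstance, fun e => hdec.comp (measurable_set_mem (toS e)), ?_, fun e => ?_⟩
  · have h1 := iIndepFun_infinitePi (P := fun i : Sym2 (Fin d → ℤ) =>
      (unitInterval.toNNReal p • Measure.dirac (i ∈ u) +
        unitInterval.toNNReal (unitInterval.symm p) • Measure.dirac False))
      (X := fun _ P => (@decide P (Classical.dec _) : Bool)) (fun _ => hdec)
    have h2 := h1.precomp (g := toS (d := d)) toS_inj
    rw [iIndepFun_iff_measure_inter_preimage_eq_mul] at h2 ⊢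
    intro S sets hsets
    have h3 := h2 S hsets
    rw [setBernoulli_apply', Finset.prod_congr rfl fun i _ => setBernoulli_apply' _]
    exact h3
  · have hmem : toS e ∈ u := by
      rw [hu, toS, SimpleGraph.mem_edgeSet, lattice_adj]
      exact ⟨e.2, Or.inl rfl⟩
    have h1 : setBernoulli u p {ω | XX e ω = true} = unitInterval.toNNReal p := by
      rw [setBernoulli_apply']
      have h2 : ((fun q : Sym2 (Fin d → ℤ) → Prop => {i | q i}) ⁻¹' {ω | XX e ω = true}) =
          (fun q : Sym2 (Fin d → ℤ) → Prop => q (toS e)) ⁻¹' {True} := by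
        ext q
        simp [XX]
      rw [h2, ← Measure.map_apply (measurable_pi_apply _) (MeasurableSet.singleton _),
        Measure.infinitePi_map_eval]
      simp [hmem]
    unfold Measure.real
    rw [h1]
    rfl

/-! ### density -/

lemma mem_ball {N : ℕ} {x : Fin d → ℤ} : x ∈ ball d N ↔ nm x ≤ N := by
  rw [nm_le_iff]
  refine forall_congr' fun i => ?_
  rw [Int.abs_eq_natAbs, Nat.cast_le]

lemma ncard_ball (N : ℕ) : (ball d N).ncard = (2 * N + 1) ^ d := by
  have : ball d N = (box d N : Set (V d)) := by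
    ext x; rw [mem_ball, Finset.mem_coe, mem_box]
  rw [this, Set.ncard_coe_finset, card_box]

/-- the edges of `A` in the ball -/
def inBall (A : Set (Sym2 (Fin d → ℤ))) (N : ℕ) : Set (Sym2 (Fin d → ℤ)) :=
  {e ∈ A | ∀ x ∈ e, x ∈ ball d N}

lemma inBall_finite (A : Set (Sym2 (Fin d → ℤ))) (N : ℕ) : (inBall A N).Finite := by
  have h1 : ((box d N ×ˢ box d N : Finset (V d × V d)) : Set (V d × V d)).Finite :=
    Finset.finite_toSet _
  refine (h1.image fun q => s(q.1, q.2)).subset ?_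
  rintro e ⟨_, he⟩
  induction e using Sym2.ind with
  | _ x y =>
    refine ⟨(x, y), ?_, rfl⟩
    rw [Finset.mem_coe, Finset.mem_product, mem_box, mem_box, ← mem_ball, ← mem_ball]
    exact ⟨he x (Sym2.mem_mk_left _ _), he y (Sym2.mem_mk_right _ _)⟩

/-- positive density with an explicit constant -/
def PD (A : Set (Sym2 (Fin d → ℤ))) : Prop :=
  ∃ c : ℝ, 0 < c ∧ ∀ᶠ N : ℕ in atTop, c * (2 * N + 1) ^ d ≤ ((inBall A N).ncard : ℝ)

lemma PD.posDens {A : Set (Sym2 (Fin d → ℤ))} (h : PD A) : PosDens A := by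
  obtain ⟨c, hc, h⟩ := h
  refine lt_of_lt_of_le (ENNReal.ofReal_pos.mpr hc) (le_liminf_of_le (by isBoundedDefault) ?_)
  filter_upwards [h] with N hN
  rw [ENNReal.le_div_iff_mul_le, ncard_ball]
  · rw [← ENNReal.ofReal_natCast, ← ENNReal.ofReal_mul hc.le, ← ENNReal.ofReal_natCast]
    refine ENNReal.ofReal_le_ofReal ?_
    push_cast
    exact hN
  · left
    rw [ncard_ball]
    positivity
  · left
    exact ENNReal.natCast_ne_top _

lemma PD.of_finite {A B : Set (Sym2 (Fin d → ℤ))} (hd : 1 ≤ d) (h : PD A) (hAB : (A \ B).Finite) :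
    PD B := by
  obtain ⟨c, hc, h⟩ := h
  refine ⟨c / 2, by positivity, ?_⟩
  obtain ⟨M, hM⟩ := exists_nat_ge (2 * (((A \ B).ncard : ℝ) / c))
  filter_upwards [h, eventually_ge_atTop M] with N hN hNM
  have h1 : inBall A N ⊆ inBall B N ∪ (A \ B) := by
    rintro e ⟨h1, h2⟩
    by_cases h3 : e ∈ B
    · exact Or.inl ⟨h3, h2⟩
    · exact Or.inr ⟨h1, h3⟩
  have h2 : (inBall A N).ncard ≤ (inBall B N).ncard + (A \ B).ncard :=
    (Set.ncard_le_ncard h1 ((inBall_finite B N).union hAB)).trans (Set.ncard_union_le _ _)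
  have h3 : ((inBall A N).ncard : ℝ) ≤ (inBall B N).ncard + (A \ B).ncard := by exact_mod_cast h2
  have h4 : ((A \ B).ncard : ℝ) ≤ c / 2 * (2 * N + 1) ^ d := by
    have h5 : (N : ℝ) ≤ (2 * N + 1) ^ d := by
      have h6 : (1 : ℝ) ≤ 2 * N + 1 := by
        have : (0 : ℝ) ≤ N := Nat.cast_nonneg N
        linarith
      calc (N : ℝ) ≤ (2 * N + 1) ^ 1 := by
            have : (0 : ℝ) ≤ N := Nat.cast_nonneg N
            linarith
        _ ≤ (2 * N + 1) ^ d := pow_le_pow_right₀ h6 hd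
    have h6 : (M : ℝ) ≤ N := by exact_mod_cast hNM
    have h7 : 2 * (((A \ B).ncard : ℝ) / c) ≤ (2 * N + 1) ^ d := by linarith
    calc ((A \ B).ncard : ℝ) = c / 2 * (2 * (((A \ B).ncard : ℝ) / c)) := by field_simp
      _ ≤ _ := mul_le_mul_of_nonneg_left h7 (by positivity)
  linarith

/-- good sites -/
def GS (O : Set (E d)) (i : Fin d) : Set (V d) :=
  {v | Pat O i v ∧ ∀ x, (x = v ∨ x = v + stp i) → ∀ z, z ≠ x → x ∈ InfV (del O z)}

open scoped Classical in
lemma gs_pd {O : Set (E d)} {i : Fin d} {c : ℝ} (hc : 0 < c)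
    (h : ∀ᶠ N : ℕ in atTop, c * (2 * N + 1) ^ d ≤
      (((box d N).filter fun v => Pat O i v ∧ ∀ x, (x = v ∨ x = v + stp i) →
        ∀ z, z ≠ x → x ∈ InfV (del O z)).card : ℝ)) :
    PD ((fun v => toS (v, i)) '' GS O i) := by
  refine ⟨c / 3 ^ d, by positivity, ?_⟩
  have h' := (tendsto_sub_atTop_nat 1).eventually h
  filter_upwards [h', eventually_ge_atTop 1] with N hN hN1
  have h1 : c / 3 ^ d * (2 * (N : ℝ) + 1) ^ d ≤ c * (2 * ((N - 1 : ℕ) : ℝ) + 1) ^ d := by
    rw [div_mul_eq_mul_div, div_le_iff₀ (by positivity), mul_assoc, ← mul_pow]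
    refine mul_le_mul_of_nonneg_left (pow_le_pow_left₀ (by positivity) ?_ d) hc.le
    have : (N : ℝ) = ((N - 1 : ℕ) : ℝ) + 1 := by
      have : N = (N - 1) + 1 := by omega
      exact_mod_cast this
    have h2 : (0 : ℝ) ≤ ((N - 1 : ℕ) : ℝ) := Nat.cast_nonneg _
    have h3 : (1 : ℝ) ≤ N := by exact_mod_cast hN1
    rw [this] at h3 ⊢
    linarith
  refine (h1.trans hN).trans ?_
  rw [Nat.cast_le, ← Set.ncard_coe_finset]
  refine Set.ncard_le_ncard_of_injOn (fun v => toS (v, i)) (fun v hv => ?_) (fun v _ w _ hvw => ?_)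
    (inBall_finite _ _)
  · rw [Finset.mem_coe, Finset.mem_filter, mem_box] at hv
    refine ⟨⟨v, hv.2, rfl⟩, fun x hx => ?_⟩
    rw [mem_ball]
    rw [toS, Sym2.mem_iff] at hx
    rcases hx with rfl | rfl
    · exact hv.1.trans (by omega)
    · have := nm_add_stp_le v i
      simp only
      omega
  · have := toS_inj hvw
    exact (Prod.mk.inj this).1

lemma gs_inf {O : Set (E d)} {i : Fin d} {v : V d} (h : v ∈ GS O i) {x : V d}
    (hx : x = v ∨ x = v + stp i) : x ∈ InfV O := by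
  obtain ⟨z, hz⟩ : ∃ z : V d, z ≠ x := ⟨x + stp i, fun h => stp_ne_zero i (add_eq_left.mp h)⟩
  have h1 := h.2 x hx z hz
  refine Set.Infinite.mono (fun y hy => ?_) h1
  exact SimpleGraph.Reachable.mono (gr_mono (del_subset O z)) hy

lemma gs_nonDangling (hd : 2 ≤ d) {O : Set (E d)} {i : Fin d} {v : V d} (h : v ∈ GS O i) :
    NonDangling (gr O) (toS (v, i)) := by
  obtain ⟨j, hj⟩ : ∃ j : Fin d, j ≠ i := by
    have : Nontrivial (Fin d) := Fin.nontrivial_iff_two_le.mpr hd
    exact exists_ne i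
  have hcyc := pat_cycle h.1 hj
  have hx : ∀ x, x ∈ toS (v, i) → x = v ∨ x = v + stp i := fun x hx => by
    rw [toS, Sym2.mem_iff] at hx; exact hx
  refine ⟨⟨gr_adj_step hcyc.1, fun x hx' => gs_inf h (hx x hx')⟩, ?_, fun x hx' z hz => ?_⟩
  · rw [toS, SimpleGraph.isBridge_iff, not_not]
    have hne1 : v + stp j ≠ v + stp i := fun h1 => hj (stp_inj.mp (add_right_inj _ |>.mp h1))
    have hne2 : v + stp j ≠ v := fun h1 => stp_ne_zero j (add_eq_left.mp h1)
    have hne3 : v + stp i + stp j ≠ v := by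
      rw [add_assoc]
      intro h1
      have := add_eq_left.mp h1
      exact stp_ne_neg (eq_neg_of_add_eq_zero_left this)
    have hne4 : v + stp i + stp j ≠ v + stp i := fun h1 => stp_ne_zero j (add_eq_left.mp h1)
    have a1 : ((gr O).deleteEdges {s(v, v + stp i)}).Adj v (v + stp j) := by
      rw [SimpleGraph.deleteEdges_adj]
      refine ⟨gr_adj_step hcyc.2.1, fun h1 => ?_⟩
      rw [Set.mem_singleton_iff, Sym2.eq_iff] at h1
      rcases h1 with ⟨_, h1⟩ | ⟨h1, _⟩
      · exact hne1 h1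
      · exact stp_ne_zero i (left_eq_add.mp h1)
    have a2 : ((gr O).deleteEdges {s(v, v + stp i)}).Adj (v + stp j) (v + stp i + stp j) := by
      rw [SimpleGraph.deleteEdges_adj]
      have h2 := gr_adj_step hcyc.2.2.2
      have e2 : v + stp j + stp i = v + stp i + stp j := by abel
      rw [e2] at h2
      refine ⟨h2, fun h1 => ?_⟩
      rw [Set.mem_singleton_iff, Sym2.eq_iff] at h1
      rcases h1 with ⟨h1, _⟩ | ⟨h1, _⟩
      · exact hne2 h1
      · exact hne1 h1
    have a3 : ((gr O).deleteEdges {s(v, v + stp i)}).Adj (v + stp i) (v + stp i + stp j) := by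
      rw [SimpleGraph.deleteEdges_adj]
      refine ⟨gr_adj_step hcyc.2.2.1, fun h1 => ?_⟩
      rw [Set.mem_singleton_iff, Sym2.eq_iff] at h1
      rcases h1 with ⟨h1, _⟩ | ⟨_, h1⟩
      · exact stp_ne_zero i (add_eq_left.mp h1)
      · exact hne3 h1
    exact (a1.reachable.trans a2.reachable).trans a3.reachable.symm
  · rw [del_gr]
    exact h.2 x (hx x hx') z hz

lemma gs_zero (hd : 2 ≤ d) {O : Set (E d)} {i : Fin d} {h : V d → ℝ} {F : Set (V d)}
    (hF : F.Finite) (hh : ∀ x ∈ InfV O, x ∉ F → HarmonicAt (gr O) h x) :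
    ({e ∈ (fun v => toS (v, i)) '' GS O i | ¬ ZeroGrad h e}).Finite := by
  have h1 : {v : V d | ∃ x ∈ F, nm (x - v) ≤ 1}.Finite := by
    have h2 : {v : V d | ∃ x ∈ F, nm (x - v) ≤ 1} ⊆ ⋃ x ∈ F, {v | nm (v - x) ≤ 1} := by
      rintro v ⟨x, hx, hv⟩
      rw [Set.mem_iUnion₂]
      exact ⟨x, hx, by rw [Set.mem_ofPred_eq, nm_sub_comm]; exact hv⟩
    exact (hF.biUnion fun x _ => finite_ball x 1).subset h2
  refine (h1.image fun v => toS (v, i)).subset ?_
  rintro _ ⟨⟨v, hv, rfl⟩, hz⟩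
  refine ⟨v, ?_, rfl⟩
  by_contra hcon
  apply hz
  have hzero : h (v + stp i) = h v := by
    refine patz d hd O i v h hv.1 fun x hx => ?_
    rw [← harmonicAt_iff]
    refine hh x ?_ fun hxF => hcon ⟨x, hxF, nm_TT hx⟩
    have h3 : (gr O).Reachable v x :=
      pat_conn hd hv.1 (by simp) ((nm_TT hx).trans (by norm_num))
    exact infV_of_reachable h3 (gs_inf hv (Or.inl rfl))
  intro x hx y hy
  have hx' := Sym2.mem_iff.mp hx
  have hy' := Sym2.mem_iff.mp hy
  rcases hx' with rfl | rfl <;> rcases hy' with rfl | rfl <;> first | rfl | simp [hzero]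

/-! ### the result -/

/-- For every `d ≥ 3` and every `p < 1` with `d 3^d (1 - p) ≤ 1/4`, almost surely the infinite
cluster is unique, it carries positive functions with value `1` at a given site that are harmonic
at all other sites and tend to zero at infinity, it has a set of positive density of non-dangling
edges on which every function harmonic outside a finite set has zero gradient up to finitely many
edges, and the assertion of the question fails. -/
theorem result (d : ℕ) (hd : 3 ≤ d) (p : unitInterval)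
    (hp : (d : ℝ) * 3 ^ d * (1 - (p : ℝ)) ≤ 1 / 4) (hp1 : (p : ℝ) < 1) :
    ∀ᵐ ω ∂(setBernoulli (lattice d).edgeSet p),
      ((infCluster (SimpleGraph.fromEdgeSet ω)).Nonempty ∧
        ∀ x ∈ infCluster (SimpleGraph.fromEdgeSet ω), ∀ y ∈ infCluster (SimpleGraph.fromEdgeSet ω),
          (SimpleGraph.fromEdgeSet ω).Reachable x y) ∧
      (∀ o ∈ infCluster (SimpleGraph.fromEdgeSet ω), ∃ u : (Fin d → ℤ) → ℝ, u o = 1 ∧
        (∀ x ∈ infCluster (SimpleGraph.fromEdgeSet ω), 0 < u x) ∧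
        (∀ x ∈ infCluster (SimpleGraph.fromEdgeSet ω), x ≠ o →
          HarmonicAt (SimpleGraph.fromEdgeSet ω) u x) ∧
        Tendsto u (cofinite ⊓ 𝓟 (infCluster (SimpleGraph.fromEdgeSet ω))) (𝓝 0)) ∧
      (∃ S : Set (Sym2 (Fin d → ℤ)), PosDens S ∧
        (∀ e ∈ S, NonDangling (SimpleGraph.fromEdgeSet ω) e) ∧
        ∀ (h : (Fin d → ℤ) → ℝ) (F : Set (Fin d → ℤ)), F.Finite →
          (∀ x ∈ infCluster (SimpleGraph.fromEdgeSet ω), x ∉ F →
            HarmonicAt (SimpleGraph.fromEdgeSet ω) h x) →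
          {e ∈ S | ¬ ZeroGrad h e}.Finite) ∧
      ¬ Assertion (SimpleGraph.fromEdgeSet ω) := by
  have hP := isPerc d p
  set i : Fin d := ⟨0, by omega⟩ with hi
  obtain ⟨c, hc, hcc⟩ := lln2 d _ _ _ p i hd hP hp1 hp
  filter_upwards [hcc, aegood d _ _ _ p hP (by linarith), setBernoulli_ae_subset] with ω h1 h2 h3
  rw [opn_XX] at h1 h2
  rw [gr_eq h3]
  set O : Set (E d) := OE ω with hO
  have hloc : Loc O := loc d (by omega) O h2
  have hPD : PD ((fun v => toS (v, i)) '' GS O i) := gs_pd hc h1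
  have hharm : ∀ o ∈ InfV O, ∃ u : (Fin d → ℤ) → ℝ, u o = 1 ∧ (∀ x ∈ InfV O, 0 < u x) ∧
      (∀ x ∈ InfV O, x ≠ o → HarmonicAt (gr O) u x) ∧
      Tendsto u (cofinite ⊓ 𝓟 (InfV O)) (𝓝 0) := by
    intro o ho
    obtain ⟨u, hu1, hu2, hu3, hu4⟩ := harm d hd O hloc o ho
    refine ⟨u, hu1, hu2, fun x _ hx => harmonicAt_iff.mpr (hu3 x hx), ?_⟩
    rw [Metric.tendsto_nhds]
    intro ε hε
    rw [eventually_inf_principal]
    obtain ⟨R, hR⟩ := hu4 (ε / 2) (by positivity)
    have h5 : ∀ᶠ x in cofinite, x ∉ {x : V d | nm (x - 0) ≤ R} := (finite_ball 0 R).eventually_cofinite_notMem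
    filter_upwards [h5] with x hx hxI
    have h6 : R ≤ nm x := by
      have : ¬ nm (x - 0) ≤ R := hx
      rw [sub_zero] at this; omega
    have h7 := hR x h6
    have h8 := hu2 x hxI
    rw [Real.dist_eq, sub_zero, abs_of_pos h8]
    linarith
  have hne : (InfV O).Nonempty := by
    obtain ⟨N, hN⟩ := h1.exists
    have h5 : 0 < c * (2 * (N : ℝ) + 1) ^ d := by positivity
    have h6 := lt_of_lt_of_le h5 hN
    rw [Nat.cast_pos, Finset.card_pos] at h6
    obtain ⟨v, hv⟩ := h6
    simp only [Finset.mem_filter] at hv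
    have h7 : v ∈ GS O i := hv.2
    exact ⟨v, gs_inf h7 (Or.inl rfl)⟩
  have hzero : ∀ (h : (Fin d → ℤ) → ℝ) (F : Set (Fin d → ℤ)), F.Finite →
      (∀ x ∈ InfV O, x ∉ F → HarmonicAt (gr O) h x) →
      {e ∈ (fun v => toS (v, i)) '' GS O i | ¬ ZeroGrad h e}.Finite := fun h F hF hh =>
    gs_zero (by omega) hF hh
  have hnd : ∀ e ∈ (fun v => toS (v, i)) '' GS O i, NonDangling (gr O) e := by
    rintro _ ⟨v, hv, rfl⟩
    exact gs_nonDangling (by omega) hv
  refine ⟨⟨hne, fun x hx y hy => loc_unique hloc hx hy⟩, hharm,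
    ⟨(fun v => toS (v, i)) '' GS O i, hPD.posDens, hnd, hzero⟩, ?_⟩
  intro hA
  obtain ⟨o, ho⟩ := hne
  obtain ⟨u, hu1, hu2, hu3, hu4⟩ := hharm o ho
  have hF : ∀ x ∈ InfV O, x ∉ ({o} : Set (V d)) → HarmonicAt (gr O) u x := fun x hx hxo =>
    hu3 x hx hxo
  have h5 : PD {e ∈ clusterEdges (gr O) | ZeroGrad u e} := by
    refine hPD.of_finite (by omega) ((hzero u {o} (Set.finite_singleton _) hF).subset ?_)
    rintro e ⟨he1, he2⟩
    refine ⟨he1, fun hz => he2 ⟨(hnd e he1).1, hz⟩⟩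
  have h6 := hA u ⟨{o}, Set.finite_singleton _, hF⟩ hu4 h5.posDens
  have h7 : {x ∈ infCluster (gr O) | u x ≠ 0} = InfV O := by
    ext x
    exact ⟨fun h => h.1, fun h => ⟨h, (hu2 x h).ne'⟩⟩
  rw [h7] at h6
  have h8 : {y | (gr O).Reachable o y} ⊆ InfV O := fun y hy => infV_of_reachable hy ho
  exact ho (h6.subset h8)

end Pool.Agent.Results.MP_b4265e_pr.VanishingGradients
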